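import Pool.Agent.N251.LF.Win
import Pool.Agent.Results.MP_05f553_nt.SequenceHeights

/-!
# Philippon's inequality for the rationals with a coordinate near the values of generic polynomials and linear forms

Let `v_i`, `i` in a countable set, be vectors in `ℝ^k`, `O(X^(τ + δ))` of them of norm at most `X` for every `δ > 0`: for
instance `(1, n, …, n^d)` with `τ = 1 / d`, or `(b_1^(n_1), …, b_k^(n_k))`, `b_j > 1`, for all `n_1, …, n_k`, with `τ = 0`, or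
`(n_1^(a_1), …, n_k^(a_k))` with `τ = ∑ 1 / a_j`. Let `θ < 1`. For all `ρ` in `ℝ^k` outside a set of Hausdorff dimension at
most `k - 1 + (s + τ) / (1 - θ)` and all `c`, for all but finitely many `i`, for EVERY integer `n` with
`|n - ρ · v_i| ≤ c ‖v_i‖^θ`, Philippon's inequality holds for all `y` of height at most `n^A` with numerator `± n` or
denominator `n` and
(1) for ALL `x`, with `s = 2 A / α`;
(2) for all `x` of height at most `T n^γ`, with `s = 2 γ + A / (α B)`;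
(3) for each fixed `x`, with `s = A / (α B)` (one exceptional set for all `x`).
The bound is less than `k` if `s + τ + θ < 1`: so this holds near `f(n)`, `n` large, for almost all real polynomials `f` of
degree `d` with `s + 1 / d < 1`, and near the large numbers `ρ_1 b_1^(n_1) + … + ρ_k b_k^(n_k)` for almost all `ρ`, if `s < 1`.
The case `k = 1` of (1) and (3) is the starting theorem `SequenceHeights`.
-/

set_option autoImplicit false

namespace Pool.Agent.Results.MP_05f553_nt.GenericLinearForms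

open Finset
open Pool.Agent.N251.LF (Fam Sq linear_win_nat)
open Pool.Agent.Results.MP_05f553_nt (FewExceptions.Holds)

/-- the height of a rational number -/
noncomputable def hgt (x : ℚ) : ℝ := max |((x.num : ℤ) : ℝ)| ((x.den : ℕ) : ℝ)

/-- the inequality holds for this `x` and all nonzero `y` of height at most `n ^ A` with numerator `± n` or
denominator `n` -/
def Good (B : ℕ) (α β ε A : ℝ) (x : ℚ) (n : ℕ) : Prop :=
  ∀ y : ℚ, y ≠ 0 → x * y ^ B ≠ 1 → x * y ^ B ≠ -1 → (y.num.natAbs = n ∨ y.den = n) → hgt y ≤ (n : ℝ) ^ A →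
    FewExceptions.Holds B α β ε x y

lemma good_iff (B : ℕ) (α β ε A : ℝ) (x : ℚ) (n : ℕ) :
    Good B α β ε A x n ↔ SequenceHeights.Good B α β ε A x n :=
  ⟨fun h y h1 h2 h3 h4 => h y h1 h2 h3 h4.1 h4.2, fun h y h1 h2 h3 h4 h5 => h y h1 h2 h3 ⟨h4, h5⟩⟩

open Classical in
/-- the rationals of bounded height -/
lemma rat_count (Z : ℝ) (hZ : 1 ≤ Z) : ∃ R : Finset ℚ, (∀ x : ℚ, hgt x ≤ Z → x ∈ R) ∧
    (R.card : ℝ) ≤ 3 * Z ^ 2 := by
  set z : ℕ := ⌊Z⌋₊ with hz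
  have hz1 : 1 ≤ z := Nat.le_floor (by exact_mod_cast hZ)
  refine ⟨(Icc (-(z : ℤ)) z ×ˢ Icc 1 z).image (fun t : ℤ × ℕ => (t.1 : ℚ) / (t.2 : ℚ)), ?_, ?_⟩
  · intro x hx
    rw [mem_image]
    unfold hgt at hx
    have h1 := (le_max_left _ _).trans hx
    have h2 := (le_max_right _ _).trans hx
    refine ⟨(x.num, x.den), ?_, Rat.num_div_den x⟩
    rw [mem_product, mem_Icc, mem_Icc]
    have h3 : x.num.natAbs ≤ z := by
      apply Nat.le_floor
      rw [Nat.cast_natAbs]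
      exact_mod_cast h1
    refine ⟨⟨by show -(z : ℤ) ≤ x.num; omega, by show x.num ≤ z; omega⟩, x.pos, Nat.le_floor h2⟩
  · have h1 : (((Icc (-(z : ℤ)) z ×ˢ Icc 1 z).image (fun t : ℤ × ℕ => (t.1 : ℚ) / (t.2 : ℚ))).card : ℝ) ≤
        (2 * z + 1) * z := by
      have h2 := card_image_le (s := Icc (-(z : ℤ)) z ×ˢ Icc 1 z)
        (f := fun t : ℤ × ℕ => (t.1 : ℚ) / (t.2 : ℚ))
      rw [card_product, Int.card_Icc, Nat.card_Icc] at h2
      have h3 : ((z : ℤ) + 1 - -(z : ℤ)).toNat = 2 * z + 1 := by omega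
      rw [h3] at h2
      have h4 : z + 1 - 1 = z := by omega
      rw [h4] at h2
      exact_mod_cast h2
    refine h1.trans ?_
    have h5 : (z : ℝ) ≤ Z := Nat.floor_le (by linarith)
    have h6 : (1 : ℝ) ≤ z := by exact_mod_cast hz1
    nlinarith

/-- the exceptional integers for the `x` of height at most `T n ^ γ` -/
def BadG (B : ℕ) (α β ε A T γ : ℝ) : Set ℕ :=
  {n : ℕ | ∃ x : ℚ, x ≠ 0 ∧ hgt x ≤ T * (n : ℝ) ^ γ ∧ ¬ Good B α β ε A x n}

open Classical in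
lemma countG (B : ℕ) (α β ε A T γ : ℝ) (hα : 1 ≤ α) (hβ : 0 ≤ β) (hε : ε < 1 / 2) (hB : 2 ≤ ε * B) (hA : 1 ≤ A)
    (hT : 1 ≤ T) (hγ : 0 ≤ γ) (δ : ℝ) (hδ : 0 < δ) : ∃ C : ℝ, ∀ X : ℕ, 1 ≤ X →
      (((Ioc 0 X).filter (fun m => m ∈ BadG B α β ε A T γ)).card : ℝ) ≤
        C * (X : ℝ) ^ (2 * γ + A / (α * B) + δ) := by
  have hA0 : 0 < A := by linarith
  have hα0 : 0 < α := by linarith
  obtain ⟨C, hC⟩ := FewExceptions.result B α β ε (δ / A) hα hβ hε hB (by positivity)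
  refine ⟨3 * T ^ 2 * (2 * |C|), fun X hX => ?_⟩
  have hX1 : (1 : ℝ) ≤ X := by exact_mod_cast hX
  have hX0 : (0 : ℝ) < X := by linarith
  obtain ⟨hfin, -, hcard⟩ := hC ((X : ℝ) ^ A) (Real.one_le_rpow hX1 hA0.le)
  have hXγ : (1 : ℝ) ≤ (X : ℝ) ^ γ := Real.one_le_rpow hX1 hγ
  obtain ⟨R, hR, hRc⟩ := rat_count (T * (X : ℝ) ^ γ) (one_le_mul_of_one_le_of_one_le hT hXγ)
  have hfin' : ∀ x : ℚ, {y : ℚ | (x, y) ∈ FewExceptions.Exceptions B α β ε ((X : ℝ) ^ A)}.Finite := fun x =>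
    hfin.preimage (Prod.mk_right_injective x).injOn
  set W : ℚ → Finset ℕ := fun x => ((hfin' x).toFinset.image (fun t => t.num.natAbs)) ∪
    ((hfin' x).toFinset.image (fun t => t.den)) with hW
  have hWc : ∀ x : ℚ, ((W x).card : ℝ) ≤ 2 * |C| * (X : ℝ) ^ (A / (α * B) + δ) := by
    intro x
    have h1 : (W x).card ≤ 2 * {y : ℚ | (x, y) ∈ FewExceptions.Exceptions B α β ε ((X : ℝ) ^ A)}.ncard := by
      have g1 := card_union_le ((hfin' x).toFinset.image (fun t => t.num.natAbs))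
        ((hfin' x).toFinset.image (fun t => t.den))
      have g3 := card_image_le (s := (hfin' x).toFinset) (f := fun t => t.num.natAbs)
      have g4 := card_image_le (s := (hfin' x).toFinset) (f := fun t => t.den)
      rw [Set.ncard_eq_toFinset_card _ (hfin' x)]
      rw [hW]
      show (((hfin' x).toFinset.image (fun t => t.num.natAbs)) ∪
        ((hfin' x).toFinset.image (fun t => t.den))).card ≤ _
      omega
    have h2 := hcard x
    have h3 : ((X : ℝ) ^ A) ^ (1 / (α * B) + δ / A) = (X : ℝ) ^ (A / (α * B) + δ) := by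
      rw [← Real.rpow_mul hX0.le]
      congr 1
      field_simp
    rw [h3] at h2
    have h4 : C * (X : ℝ) ^ (A / (α * B) + δ) ≤ |C| * (X : ℝ) ^ (A / (α * B) + δ) :=
      mul_le_mul_of_nonneg_right (le_abs_self C) (by positivity)
    have h5 : ((W x).card : ℝ) ≤
        2 * ({y : ℚ | (x, y) ∈ FewExceptions.Exceptions B α β ε ((X : ℝ) ^ A)}.ncard : ℝ) := by
      exact_mod_cast h1
    linarith
  have hsub : (Ioc 0 X).filter (fun m => m ∈ BadG B α β ε A T γ) ⊆ R.biUnion W := by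
    intro n hn
    rw [mem_filter, mem_Ioc] at hn
    obtain ⟨⟨hn0, hnX⟩, x, hx, hxh, hg⟩ := hn
    have hnX' : (n : ℝ) ≤ X := by exact_mod_cast hnX
    unfold Good at hg
    push Not at hg
    obtain ⟨y, hy, h1, h2, h3, h4, h5⟩ := hg
    rw [mem_biUnion]
    refine ⟨x, hR x (hxh.trans ?_), ?_⟩
    · exact mul_le_mul_of_nonneg_left (Real.rpow_le_rpow (Nat.cast_nonneg _) hnX' hγ) (by linarith)
    · have hmem : y ∈ (hfin' x).toFinset := by
        rw [Set.Finite.mem_toFinset]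
        refine ⟨hx, hy, h1, h2, ?_, h5⟩
        exact h4.trans (Real.rpow_le_rpow (Nat.cast_nonneg _) hnX' hA0.le)
      rw [hW, mem_union, mem_image, mem_image]
      rcases h3 with h3 | h3
      · exact Or.inl ⟨y, hmem, h3⟩
      · exact Or.inr ⟨y, hmem, h3⟩
  have h1 : (((Ioc 0 X).filter (fun m => m ∈ BadG B α β ε A T γ)).card : ℝ) ≤ ∑ x ∈ R, ((W x).card : ℝ) := by
    have := (card_le_card hsub).trans card_biUnion_le
    exact_mod_cast this
  refine h1.trans ((sum_le_sum (fun x _ => hWc x)).trans ?_)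
  rw [sum_const, nsmul_eq_mul]
  have h3 : (T * (X : ℝ) ^ γ) ^ 2 * (X : ℝ) ^ (A / (α * B) + δ) =
      T ^ 2 * (X : ℝ) ^ (2 * γ + A / (α * B) + δ) := by
    have h4 : ((X : ℝ) ^ γ) ^ 2 = (X : ℝ) ^ (2 * γ) := by
      rw [← Real.rpow_natCast, ← Real.rpow_mul hX0.le]
      congr 1
      push_cast
      ring
    rw [mul_pow, h4, mul_assoc, ← Real.rpow_add hX0]
    congr 2
    ring
  calc (R.card : ℝ) * (2 * |C| * (X : ℝ) ^ (A / (α * B) + δ))
      ≤ (3 * (T * (X : ℝ) ^ γ) ^ 2) * (2 * |C| * (X : ℝ) ^ (A / (α * B) + δ)) :=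
        mul_le_mul_of_nonneg_right hRc (by positivity)
    _ = 3 * (2 * |C|) * ((T * (X : ℝ) ^ γ) ^ 2 * (X : ℝ) ^ (A / (α * B) + δ)) := by ring
    _ = _ := by rw [h3]; ring

/-- **Philippon's inequality near the values of generic linear forms.** Let `α ≥ 1`, `β ≥ 0`, `ε < 1/2`, `ε B ≥ 2`,
`A ≥ 1`, `θ < 1`, and let `v` be a family of vectors in `ℝ^k` of exponent `τ ≥ 0`. For all `ρ` in `ℝ^k` outside a set of
Hausdorff dimension at most `k - 1 + (s + τ) / (1 - θ)` and all `c`, for all but finitely many `i`, for EVERY integer `n`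
with `|n - ∑ ρ_j v_(i,j)| ≤ c ‖v_i‖^θ` the inequality holds for all `y ≠ 0` of height at most `n^A` with numerator `± n` or
denominator `n`, and
(1) for ALL `x ≠ 0`, with `s = 2 A / α`;
(2) for all `x ≠ 0` of height at most `T n^γ`, with `s = 2 γ + A / (α B)` (`T` any constant, `γ ≥ 0`);
(3) for each `x ≠ 0`, with `s = A / (α B)`.
The vectors `(1, n, …, n^d)` are a family of exponent `1 / d`, the `(b_1^(n_1), …, b_k^(n_k))` with `b_j > 1` one of
exponent `0`, the `(n_1^(a_1), …, n_k^(a_k))` with `a_j > 0` one of exponent `∑ 1 / a_j`, and the `(u_1(n_1), …, u_k(n_k))` one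
of exponent `∑ τ_j`, if the sequences `u_j` have exponents `τ_j`. -/
theorem result (B : ℕ) (α β ε A θ : ℝ) (hα : 1 ≤ α) (hβ : 0 ≤ β) (hε : ε < 1 / 2) (hB : 2 ≤ ε * B) (hA : 1 ≤ A)
    (hθ : θ < 1) :
    (∀ (k : ℕ) (ι : Type) (v : ι → Fin k → ℝ) (τ : ℝ), Fam v τ → 0 ≤ τ →
      (∃ E : Set (Fin k → ℝ), dimH E ≤ ENNReal.ofReal ((k : ℝ) - 1 + (2 * A / α + τ) / (1 - θ)) ∧
        ∀ ρ, ρ ∉ E → ∀ c : ℝ, {i | ¬ ∀ n : ℕ, |(n : ℝ) - ∑ j, ρ j * v i j| ≤ c * ‖v i‖ ^ θ → ∀ x : ℚ, x ≠ 0 →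
          Good B α β ε A x n}.Finite) ∧
      (∀ T γ : ℝ, 0 ≤ γ → ∃ E : Set (Fin k → ℝ),
        dimH E ≤ ENNReal.ofReal ((k : ℝ) - 1 + (2 * γ + A / (α * B) + τ) / (1 - θ)) ∧
        ∀ ρ, ρ ∉ E → ∀ c : ℝ, {i | ¬ ∀ n : ℕ, |(n : ℝ) - ∑ j, ρ j * v i j| ≤ c * ‖v i‖ ^ θ → ∀ x : ℚ, x ≠ 0 →
          hgt x ≤ T * (n : ℝ) ^ γ → Good B α β ε A x n}.Finite) ∧
      (∃ E : Set (Fin k → ℝ), dimH E ≤ ENNReal.ofReal ((k : ℝ) - 1 + (A / (α * B) + τ) / (1 - θ)) ∧
        ∀ ρ, ρ ∉ E → ∀ x : ℚ, x ≠ 0 → ∀ c : ℝ,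
          {i | ¬ ∀ n : ℕ, |(n : ℝ) - ∑ j, ρ j * v i j| ≤ c * ‖v i‖ ^ θ → Good B α β ε A x n}.Finite)) ∧
    (∀ d : ℕ, 1 ≤ d → Fam (fun (n : ℕ) (j : Fin (d + 1)) => (n : ℝ) ^ (j : ℕ)) (1 / d)) ∧
    (∀ (k : ℕ) (b : Fin k → ℝ), (∀ j, 1 < b j) → Fam (fun (n : Fin k → ℕ) (j : Fin k) => b j ^ n j) 0) ∧
    (∀ (k : ℕ) (a : Fin k → ℝ), (∀ j, 0 < a j) →
      Fam (fun (n : Fin k → ℕ) (j : Fin k) => (n j : ℝ) ^ a j) (∑ j, 1 / a j)) ∧
    ∀ (k : ℕ) (u : Fin k → ℕ → ℝ) (τ : Fin k → ℝ), (∀ j, Sq (u j) (τ j)) →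
      Fam (fun (n : Fin k → ℕ) (j : Fin k) => u j (n j)) (∑ j, τ j) := by
  have hA0 : 0 < A := by linarith
  have hα0 : 0 < α := by linarith
  refine ⟨fun k ι v τ hv hτ => ⟨?_, fun T γ hγ => ?_, ?_⟩, Pool.Agent.N251.LF.examples⟩
  · obtain ⟨E, h1, h2⟩ := linear_win_nat (SequenceHeights.Bad B α β ε A) v (s := A * (2 / α)) (by positivity) hτ hθ hv
      (fun δ hδ => by
        obtain ⟨C, hC⟩ := SequenceHeights.count B α β ε A hα hβ hε hB hA δ hδ
        refine ⟨C, fun X hX => le_trans (le_of_eq ?_) (hC X hX)⟩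
        congr!)
    rw [show A * (2 / α) + τ = 2 * A / α + τ by ring] at h1
    refine ⟨E, h1, fun ρ hρ c => (h2 ρ hρ c).subset ?_⟩
    intro i hi
    simp only [Set.mem_ofPred_eq] at hi ⊢
    push Not at hi
    obtain ⟨n, hn, x, hx, hg⟩ := hi
    exact ⟨n, Or.inr ⟨x, hx, fun h => hg ((good_iff _ _ _ _ _ _ _).2 h)⟩, hn⟩
  · have hT' : (1 : ℝ) ≤ max T 1 := le_max_right _ _
    obtain ⟨E, h1, h2⟩ := linear_win_nat (BadG B α β ε A (max T 1) γ) v (s := 2 * γ + A / (α * B))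
      (by positivity) hτ hθ hv (fun δ hδ => by
        obtain ⟨C, hC⟩ := countG B α β ε A (max T 1) γ hα hβ hε hB hA hT' hγ δ hδ
        refine ⟨C, fun X hX => le_trans (le_of_eq ?_) (hC X hX)⟩
        congr!)
    refine ⟨E, h1, fun ρ hρ c => (h2 ρ hρ c).subset ?_⟩
    intro i hi
    simp only [Set.mem_ofPred_eq] at hi ⊢
    push Not at hi
    obtain ⟨n, hn, x, hx, hh, hg⟩ := hi
    refine ⟨n, Or.inr ⟨x, hx, hh.trans ?_, hg⟩, hn⟩
    exact mul_le_mul_of_nonneg_right (le_max_left _ _) (by positivity)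
  · have hx : ∀ x : {x : ℚ // x ≠ 0}, ∃ E : Set (Fin k → ℝ),
        dimH E ≤ ENNReal.ofReal ((k : ℝ) - 1 + (A / (α * B) + τ) / (1 - θ)) ∧
        ∀ ρ, ρ ∉ E → ∀ c : ℝ,
          {i | ¬ ∀ n : ℕ, |(n : ℝ) - ∑ j, ρ j * v i j| ≤ c * ‖v i‖ ^ θ → Good B α β ε A x n}.Finite := by
      intro x
      obtain ⟨E, h1, h2⟩ := linear_win_nat (SequenceHeights.BadAt B α β ε A x) v (s := A * (1 / (α * B)))
        (by positivity) hτ hθ hv (fun δ hδ => by
          obtain ⟨C, hC⟩ := SequenceHeights.countAt B α β ε A hα hβ hε hB hA x x.2 δ hδ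
          refine ⟨C, fun X hX => le_trans (le_of_eq ?_) (hC X hX)⟩
          congr!)
      rw [show A * (1 / (α * B)) + τ = A / (α * B) + τ by ring] at h1
      refine ⟨E, h1, fun ρ hρ c => (h2 ρ hρ c).subset ?_⟩
      intro i hi
      simp only [Set.mem_ofPred_eq] at hi ⊢
      push Not at hi
      obtain ⟨n, hn, hg⟩ := hi
      exact ⟨n, Or.inr (fun h => hg ((good_iff _ _ _ _ _ _ _).2 h)), hn⟩
    choose E h1 h2 using hx
    refine ⟨⋃ x, E x, ?_, fun ρ hρ x hx c => ?_⟩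
    · rw [dimH_iUnion]
      exact iSup_le h1
    · exact h2 ⟨x, hx⟩ ρ (fun h => hρ (Set.mem_iUnion.2 ⟨_, h⟩)) c

end Pool.Agent.Results.MP_05f553_nt.GenericLinearForms
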