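import Pool.Agent.N671.DA.Win
import Pool.Agent.Results.MP_05f553_nt.SequenceHeights

/-!
# Philippon's inequality for the rationals with a coordinate near the denominators of good approximations

Let `ξ_1, …, ξ_m` be real numbers. We consider the natural numbers `q` with `‖q ξ_j - b_j‖ ≤ c q^(-τ)` for all `j`, `‖x‖` the
distance to the nearest integer; for `b = 0`, `c = 1`, `τ = 1 / m` these include the denominators of all best simultaneous
approximations (the denominators of the convergents for `m = 1`). They form a very sparse sequence, with gaps growing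
exponentially for almost all `ξ` if `τ = 1 / m`. Let `G` be a function with steps bounded below by a positive constant and
growth at most `v^d`, for example `a v^d`. For all `ξ` in `ℝ^m` outside a small set `E` and all `c`, for all but finitely many
such `q`, for EVERY integer `n` with `|n - G q| ≤ q^κ`, Philippon's inequality holds
(1) for ALL `x` and all `y` of height at most `n^A` with numerator `± n` or denominator `n`; here `E` has Hausdorff dimension
at most `(m + 2 A d / α + κ) / (1 + τ)`;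
(2) for all `x` of height at most `T n^γ`, `T` any constant, and these `y`; here `E` has Hausdorff dimension at most
`(m + d (2 γ + A / (α B)) + κ) / (1 + τ)` and does not depend on `T` (every `α ≥ 1` is allowed).
For `τ = 1 / m` the bounds are less than `m` if `2 A d / α + κ < 1` and `d (2 γ + A / (α B)) + κ < 1`, and so the statements
hold for almost all `ξ`.

Proof. The `q` such that some exceptional integer is near `G q` form a set with a power saving, by the starting theorem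
`FewExceptions` of this problem; and the `ξ` with `‖q ξ_j - b_j‖ ≤ c q^(-τ)` for all `j` and infinitely many `q` of such a
set are covered by few small cubes.
-/

set_option autoImplicit false

namespace Pool.Agent.Results.MP_05f553_nt.SimultaneousApproximations

open Finset
open Pool.Agent.N671.DA (Solves Expanding expanding_pow approx_win_nat)
open Pool.Agent.Results.MP_05f553_nt (FewExceptions.Holds)

/-- the height of a rational number -/
noncomputable def hgt (x : ℚ) : ℝ := max |((x.num : ℤ) : ℝ)| ((x.den : ℕ) : ℝ)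

/-- the inequality holds for this `x` and all nonzero `y` of height at most `n ^ A` with numerator `± n` or
denominator `n` -/
def Good (B : ℕ) (α β ε A : ℝ) (x : ℚ) (n : ℕ) : Prop :=
  ∀ y : ℚ, y ≠ 0 → x * y ^ B ≠ 1 → x * y ^ B ≠ -1 → (y.num.natAbs = n ∨ y.den = n) → hgt y ≤ (n : ℝ) ^ A →
    FewExceptions.Holds B α β ε x y

lemma good_iff (B : ℕ) (α β ε A : ℝ) (x : ℚ) (n : ℕ) :
    Good B α β ε A x n ↔ SequenceHeights.Good B α β ε A x n :=
  ⟨fun h y h1 h2 h3 h4 => h y h1 h2 h3 h4.1 h4.2, fun h y h1 h2 h3 h4 h5 => h y h1 h2 h3 ⟨h4, h5⟩⟩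

open Classical in
/-- the rationals of bounded height -/
lemma rat_count (Z : ℝ) (hZ : 1 ≤ Z) : ∃ R : Finset ℚ, (∀ x : ℚ, hgt x ≤ Z → x ∈ R) ∧
    (R.card : ℝ) ≤ 3 * Z ^ 2 := by
  set z : ℕ := ⌊Z⌋₊ with hz
  have hz1 : 1 ≤ z := Nat.le_floor (by exact_mod_cast hZ)
  refine ⟨(Icc (-(z : ℤ)) z ×ˢ Icc 1 z).image (fun t : ℤ × ℕ => (t.1 : ℚ) / (t.2 : ℚ)), ?_, ?_⟩
  · intro x hx
    rw [mem_image]
    unfold hgt at hx
    have h1 := (le_max_left _ _).trans hx
    have h2 := (le_max_right _ _).trans hx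
    refine ⟨(x.num, x.den), ?_, Rat.num_div_den x⟩
    rw [mem_product, mem_Icc, mem_Icc]
    have h3 : x.num.natAbs ≤ z := by
      apply Nat.le_floor
      rw [Nat.cast_natAbs]
      exact_mod_cast h1
    refine ⟨⟨by show -(z : ℤ) ≤ x.num; omega, by show x.num ≤ z; omega⟩, x.pos, Nat.le_floor h2⟩
  · have h1 : (((Icc (-(z : ℤ)) z ×ˢ Icc 1 z).image (fun t : ℤ × ℕ => (t.1 : ℚ) / (t.2 : ℚ))).card : ℝ) ≤
        (2 * z + 1) * z := by
      have h2 := card_image_le (s := Icc (-(z : ℤ)) z ×ˢ Icc 1 z)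
        (f := fun t : ℤ × ℕ => (t.1 : ℚ) / (t.2 : ℚ))
      rw [card_product, Int.card_Icc, Nat.card_Icc] at h2
      have h3 : ((z : ℤ) + 1 - -(z : ℤ)).toNat = 2 * z + 1 := by omega
      rw [h3] at h2
      have h4 : z + 1 - 1 = z := by omega
      rw [h4] at h2
      exact_mod_cast h2
    refine h1.trans ?_
    have h5 : (z : ℝ) ≤ Z := Nat.floor_le (by linarith)
    have h6 : (1 : ℝ) ≤ z := by exact_mod_cast hz1
    nlinarith

/-- the exceptional integers for the `x` of height at most `T n ^ γ` -/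
def BadG (B : ℕ) (α β ε A T γ : ℝ) : Set ℕ :=
  {n : ℕ | ∃ x : ℚ, x ≠ 0 ∧ hgt x ≤ T * (n : ℝ) ^ γ ∧ ¬ Good B α β ε A x n}

open Classical in
lemma countG (B : ℕ) (α β ε A T γ : ℝ) (hα : 1 ≤ α) (hβ : 0 ≤ β) (hε : ε < 1 / 2) (hB : 2 ≤ ε * B) (hA : 1 ≤ A)
    (hT : 1 ≤ T) (hγ : 0 ≤ γ) (δ : ℝ) (hδ : 0 < δ) : ∃ C : ℝ, ∀ X : ℕ, 1 ≤ X →
      (((Ioc 0 X).filter (fun m => m ∈ BadG B α β ε A T γ)).card : ℝ) ≤
        C * (X : ℝ) ^ (2 * γ + A / (α * B) + δ) := by
  have hA0 : 0 < A := by linarith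
  have hα0 : 0 < α := by linarith
  obtain ⟨C, hC⟩ := FewExceptions.result B α β ε (δ / A) hα hβ hε hB (by positivity)
  refine ⟨3 * T ^ 2 * (2 * |C|), fun X hX => ?_⟩
  have hX1 : (1 : ℝ) ≤ X := by exact_mod_cast hX
  have hX0 : (0 : ℝ) < X := by linarith
  obtain ⟨hfin, -, hcard⟩ := hC ((X : ℝ) ^ A) (Real.one_le_rpow hX1 hA0.le)
  have hXγ : (1 : ℝ) ≤ (X : ℝ) ^ γ := Real.one_le_rpow hX1 hγ
  obtain ⟨R, hR, hRc⟩ := rat_count (T * (X : ℝ) ^ γ) (one_le_mul_of_one_le_of_one_le hT hXγ)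
  have hfin' : ∀ x : ℚ, {y : ℚ | (x, y) ∈ FewExceptions.Exceptions B α β ε ((X : ℝ) ^ A)}.Finite := fun x =>
    hfin.preimage (Prod.mk_right_injective x).injOn
  set W : ℚ → Finset ℕ := fun x => ((hfin' x).toFinset.image (fun t => t.num.natAbs)) ∪
    ((hfin' x).toFinset.image (fun t => t.den)) with hW
  have hWc : ∀ x : ℚ, ((W x).card : ℝ) ≤ 2 * |C| * (X : ℝ) ^ (A / (α * B) + δ) := by
    intro x
    have h1 : (W x).card ≤ 2 * {y : ℚ | (x, y) ∈ FewExceptions.Exceptions B α β ε ((X : ℝ) ^ A)}.ncard := by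
      have g1 := card_union_le ((hfin' x).toFinset.image (fun t => t.num.natAbs))
        ((hfin' x).toFinset.image (fun t => t.den))
      have g3 := card_image_le (s := (hfin' x).toFinset) (f := fun t => t.num.natAbs)
      have g4 := card_image_le (s := (hfin' x).toFinset) (f := fun t => t.den)
      rw [Set.ncard_eq_toFinset_card _ (hfin' x)]
      rw [hW]
      show (((hfin' x).toFinset.image (fun t => t.num.natAbs)) ∪
        ((hfin' x).toFinset.image (fun t => t.den))).card ≤ _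
      omega
    have h2 := hcard x
    have h3 : ((X : ℝ) ^ A) ^ (1 / (α * B) + δ / A) = (X : ℝ) ^ (A / (α * B) + δ) := by
      rw [← Real.rpow_mul hX0.le]
      congr 1
      field_simp
    rw [h3] at h2
    have h4 : C * (X : ℝ) ^ (A / (α * B) + δ) ≤ |C| * (X : ℝ) ^ (A / (α * B) + δ) :=
      mul_le_mul_of_nonneg_right (le_abs_self C) (by positivity)
    have h5 : ((W x).card : ℝ) ≤
        2 * ({y : ℚ | (x, y) ∈ FewExceptions.Exceptions B α β ε ((X : ℝ) ^ A)}.ncard : ℝ) := by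
      exact_mod_cast h1
    linarith
  have hsub : (Ioc 0 X).filter (fun m => m ∈ BadG B α β ε A T γ) ⊆ R.biUnion W := by
    intro n hn
    rw [mem_filter, mem_Ioc] at hn
    obtain ⟨⟨hn0, hnX⟩, x, hx, hxh, hg⟩ := hn
    have hnX' : (n : ℝ) ≤ X := by exact_mod_cast hnX
    unfold Good at hg
    push Not at hg
    obtain ⟨y, hy, h1, h2, h3, h4, h5⟩ := hg
    rw [mem_biUnion]
    refine ⟨x, hR x (hxh.trans ?_), ?_⟩
    · exact mul_le_mul_of_nonneg_left (Real.rpow_le_rpow (Nat.cast_nonneg _) hnX' hγ) (by linarith)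
    · have hmem : y ∈ (hfin' x).toFinset := by
        rw [Set.Finite.mem_toFinset]
        refine ⟨hx, hy, h1, h2, ?_, h5⟩
        exact h4.trans (Real.rpow_le_rpow (Nat.cast_nonneg _) hnX' hA0.le)
      rw [hW, mem_union, mem_image, mem_image]
      rcases h3 with h3 | h3
      · exact Or.inl ⟨y, hmem, h3⟩
      · exact Or.inr ⟨y, hmem, h3⟩
  have h1 : (((Ioc 0 X).filter (fun m => m ∈ BadG B α β ε A T γ)).card : ℝ) ≤ ∑ x ∈ R, ((W x).card : ℝ) := by
    have := (card_le_card hsub).trans card_biUnion_le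
    exact_mod_cast this
  refine h1.trans ((sum_le_sum (fun x _ => hWc x)).trans ?_)
  rw [sum_const, nsmul_eq_mul]
  have h3 : (T * (X : ℝ) ^ γ) ^ 2 * (X : ℝ) ^ (A / (α * B) + δ) =
      T ^ 2 * (X : ℝ) ^ (2 * γ + A / (α * B) + δ) := by
    have h4 : ((X : ℝ) ^ γ) ^ 2 = (X : ℝ) ^ (2 * γ) := by
      rw [← Real.rpow_natCast, ← Real.rpow_mul hX0.le]
      congr 1
      push_cast
      ring
    rw [mul_pow, h4, mul_assoc, ← Real.rpow_add hX0]
    congr 2
    ring
  calc (R.card : ℝ) * (2 * |C| * (X : ℝ) ^ (A / (α * B) + δ))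
      ≤ (3 * (T * (X : ℝ) ^ γ) ^ 2) * (2 * |C| * (X : ℝ) ^ (A / (α * B) + δ)) :=
        mul_le_mul_of_nonneg_right hRc (by positivity)
    _ = 3 * (2 * |C|) * ((T * (X : ℝ) ^ γ) ^ 2 * (X : ℝ) ^ (A / (α * B) + δ)) := by ring
    _ = _ := by rw [h3]; ring

/-- **Philippon's inequality near the denominators of good approximations.** Let `α ≥ 1`, `β ≥ 0`, `ε < 1/2`, `ε B ≥ 2`,
`A ≥ 1`, `0 ≤ κ ≤ 1`, let `G` have steps `≥ a > 0` and growth at most `v^d`, and let `b` in `ℝ^m` and `τ > 0`.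
(1) For all `ξ` in `ℝ^m` outside a set of Hausdorff dimension at most `(m + 2 A d / α + κ) / (1 + τ)` and all `c`, for all
large `q` with `‖q ξ_j - b_j‖ ≤ c q^(-τ)` for all `j`, for EVERY integer `n` with `|n - G q| ≤ q^κ` the inequality holds for
ALL `x ≠ 0` and all `y ≠ 0` of height at most `n^A` with numerator `± n` or denominator `n` (and `x y^B ≠ ± 1`).
(2) Let `γ ≥ 0`. For all `ξ` outside a set of Hausdorff dimension at most `(m + d (2 γ + A / (α B)) + κ) / (1 + τ)`, all `T`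
and all `c`, for all large `q` as in (1) and all `n` as in (1) the inequality holds for all `x ≠ 0` of height at most
`T n^γ` and all `y` as in (1).
The functions `a v^d` with `a > 0`, `d ≥ 1` are examples of `G`. -/
theorem result (B : ℕ) (α β ε A κ : ℝ) (hα : 1 ≤ α) (hβ : 0 ≤ β) (hε : ε < 1 / 2) (hB : 2 ≤ ε * B) (hA : 1 ≤ A)
    (hκ : 0 ≤ κ) (hκ1 : κ ≤ 1) :
    (∀ (G : ℕ → ℝ) (d : ℝ), Expanding G d → ∀ (m : ℕ) (b : Fin m → ℝ) (τ : ℝ), 0 < τ →
      (∃ E : Set (Fin m → ℝ), dimH E ≤ ENNReal.ofReal ((m + (2 * A * d / α + κ)) / (1 + τ)) ∧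
        ∀ ξ, ξ ∉ E → ∀ c : ℝ, ∃ Q : ℕ, ∀ q : ℕ, Q ≤ q → Solves ξ b q (c * (q : ℝ) ^ (-τ)) →
          ∀ n : ℕ, |(n : ℝ) - G q| ≤ (q : ℝ) ^ κ → ∀ x : ℚ, x ≠ 0 → Good B α β ε A x n) ∧
      (∀ γ : ℝ, 0 ≤ γ → ∃ E : Set (Fin m → ℝ),
        dimH E ≤ ENNReal.ofReal ((m + (d * (2 * γ + A / (α * B)) + κ)) / (1 + τ)) ∧
        ∀ ξ, ξ ∉ E → ∀ T c : ℝ, ∃ Q : ℕ, ∀ q : ℕ, Q ≤ q → Solves ξ b q (c * (q : ℝ) ^ (-τ)) →
          ∀ n : ℕ, |(n : ℝ) - G q| ≤ (q : ℝ) ^ κ → ∀ x : ℚ, x ≠ 0 → hgt x ≤ T * (n : ℝ) ^ γ →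
            Good B α β ε A x n)) ∧
    ∀ a d : ℝ, 0 < a → 1 ≤ d → Expanding (fun v => a * (v : ℝ) ^ d) d := by
  have hA0 : 0 < A := by linarith
  have hα0 : 0 < α := by linarith
  refine ⟨fun G d hG m b τ hτ => ⟨?_, fun γ hγ => ?_⟩, fun a d ha hd => expanding_pow ha hd⟩
  · obtain ⟨E, hE, hE2⟩ := approx_win_nat (SequenceHeights.Bad B α β ε A) hG (s := A * (2 / α)) (by positivity) hκ hκ1
      (fun δ hδ => by
        obtain ⟨C, hC⟩ := SequenceHeights.count B α β ε A hα hβ hε hB hA δ hδ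
        refine ⟨C, fun X hX => le_trans (le_of_eq ?_) (hC X hX)⟩
        congr!) b hτ
    rw [show d * (A * (2 / α)) + κ = 2 * A * d / α + κ by ring] at hE
    refine ⟨E, hE, fun ξ hξ c => ?_⟩
    obtain ⟨Q, hQ⟩ := hE2 ξ hξ c
    refine ⟨Q, fun q hq h1 n hn x hx => ?_⟩
    by_contra hg
    exact hQ q hq h1 n (Or.inr ⟨x, hx, fun h => hg ((good_iff _ _ _ _ _ _ _).2 h)⟩) hn
  · have hk : ∀ k : ℕ, ∃ E : Set (Fin m → ℝ),
        dimH E ≤ ENNReal.ofReal ((m + (d * (2 * γ + A / (α * B)) + κ)) / (1 + τ)) ∧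
        ∀ ξ, ξ ∉ E → ∀ c : ℝ, ∃ Q : ℕ, ∀ q : ℕ, Q ≤ q → Solves ξ b q (c * (q : ℝ) ^ (-τ)) →
          ∀ n : ℕ, (n = 0 ∨ n ∈ BadG B α β ε A ((k : ℝ) + 1) γ) → ¬ |(n : ℝ) - G q| ≤ (q : ℝ) ^ κ := by
      intro k
      have hk1 : (1 : ℝ) ≤ (k : ℝ) + 1 := by
        have : (0 : ℝ) ≤ k := Nat.cast_nonneg k
        linarith
      exact approx_win_nat (BadG B α β ε A ((k : ℝ) + 1) γ) hG (s := 2 * γ + A / (α * B)) (by positivity) hκ hκ1
        (fun δ hδ => by
          obtain ⟨C, hC⟩ := countG B α β ε A ((k : ℝ) + 1) γ hα hβ hε hB hA hk1 hγ δ hδ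
          refine ⟨C, fun X hX => le_trans (le_of_eq ?_) (hC X hX)⟩
          congr!) b hτ
    choose E hE hE2 using hk
    refine ⟨⋃ k, E k, ?_, fun ξ hξ T c => ?_⟩
    · rw [dimH_iUnion]
      exact iSup_le hE
    · obtain ⟨k, hk⟩ := exists_nat_ge T
      obtain ⟨Q, hQ⟩ := hE2 k ξ (fun h => hξ (Set.mem_iUnion.2 ⟨k, h⟩)) c
      refine ⟨Q, fun q hq h1 n hn x hx hh => ?_⟩
      by_contra hg
      refine hQ q hq h1 n (Or.inr ⟨x, hx, hh.trans ?_, hg⟩) hn
      exact mul_le_mul_of_nonneg_right (by linarith) (by positivity)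

end Pool.Agent.Results.MP_05f553_nt.SimultaneousApproximations
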